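import Pool.Agent.H54Sharp.Stmt

set_option autoImplicit false

namespace Pool.Agent.H54Sharp

open MeasureTheory Finset Filter Topology Pool.Agent.Helper43.Copula

variable {m J : ℕ} {L R : ℕ → ℝ} {a : ℕ → ℕ}

theorem Bands.L_mono (hB : Bands m J L R a) {g g' : ℕ} (h : g ≤ g') (hg : g' ≤ J) : L g ≤ L g' := by
  induction g', h using Nat.le_induction with
  | base => exact le_rfl
  | succ g' h ih => exact (ih (by omega)).trans (hB.mono g' (by omega))

theorem Bands.R_anti (hB : Bands m J L R a) {g g' : ℕ} (h : g ≤ g') (hg : g' ≤ J) : R g' ≤ R g := by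
  induction g', h using Nat.le_induction with
  | base => exact le_rfl
  | succ g' h ih => exact (hB.anti g' (by omega)).trans (ih (by omega))

theorem sum_Mg (L R : ℕ → ℝ) (g : ℕ) :
    ∑ h ∈ range g, Mg L R h = (L g - L 0) + (R 0 - R g) := by
  unfold Mg
  rw [sum_add_distrib, sum_range_sub, sum_range_sub']

theorem Bands.sum_Mg_eq (hB : Bands m J L R a) : ∑ g ∈ range J, Mg L R g = R 0 - L 0 := by
  rw [sum_Mg, hB.meet]
  ring

theorem Xg_succ (L R : ℕ → ℝ) (g : ℕ) : Xg L R (g + 1) = Xg L R g + Mg L R g := by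
  unfold Xg
  rw [sum_range_succ]
  ring

theorem Bands.Xg_ge (hB : Bands m J L R a) {g : ℕ} (hg : g ≤ J) : L 0 ≤ Xg L R g := by
  unfold Xg
  have : 0 ≤ ∑ h ∈ range g, Mg L R h := sum_nonneg fun h hh => (hB.mpos h (by
    have := mem_range.mp hh
    omega)).le
  linarith

theorem Bands.Xg_le (hB : Bands m J L R a) {g : ℕ} (hg : g ≤ J) : Xg L R g ≤ R 0 := by
  unfold Xg
  have h1 : ∑ h ∈ range g, Mg L R h ≤ ∑ h ∈ range J, Mg L R h := by
    apply sum_le_sum_of_subset_of_nonneg
    · exact range_subset_range.mpr hg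
    · intro h hh _
      exact (hB.mpos h (mem_range.mp hh)).le
  rw [hB.sum_Mg_eq] at h1
  linarith

theorem Bands.cell (hB : Bands m J L R a) (hm : 1 ≤ m) {g c : ℕ} (hg : g < J) (hc : c < m) :
    L 0 ≤ cellLeft m L R a g c ∧ cellLeft m L R a g c + Mg L R g / m ≤ R 0 := by
  have hm' : (0 : ℝ) < m := by exact_mod_cast hm
  have hM := hB.mpos g hg
  have hη : 0 < Mg L R g / m := div_pos hM hm'
  have e1 : L (g + 1) - L g = a g * (Mg L R g / m) := by
    have := hB.left g hg
    field_simp
    linarith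
  have e2 : R g - R (g + 1) = ((m : ℝ) - a g) * (Mg L R g / m) := by
    have h1 : (m : ℝ) * (Mg L R g / m) = Mg L R g := by field_simp
    have h2 : Mg L R g = (L (g + 1) - L g) + (R g - R (g + 1)) := rfl
    rw [sub_mul, h1, ← e1]
    linarith
  unfold cellLeft
  split_ifs with h
  · constructor
    · have h1 := hB.L_mono (Nat.zero_le g) hg.le
      have : (0 : ℝ) ≤ c * (Mg L R g / m) := by positivity
      linarith
    · have h1 : ((c : ℝ) + 1) ≤ a g := by exact_mod_cast h
      have h2 : ((c : ℝ) + 1) * (Mg L R g / m) ≤ a g * (Mg L R g / m) :=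
        mul_le_mul_of_nonneg_right h1 hη.le
      have h3 := hB.L_mono (g := g + 1) (g' := J) hg le_rfl
      have h4 := hB.R_anti (Nat.zero_le J) le_rfl
      rw [hB.meet] at h3
      linarith
  · push Not at h
    constructor
    · have h1 : (0 : ℝ) ≤ (c : ℝ) - a g := by
        have : (a g : ℝ) ≤ c := by exact_mod_cast h
        linarith
      have h2 : 0 ≤ ((c : ℝ) - a g) * (Mg L R g / m) := mul_nonneg h1 hη.le
      have h3 := hB.R_anti (g := g + 1) (g' := J) hg le_rfl
      have h4 := hB.L_mono (Nat.zero_le J) le_rfl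
      rw [hB.meet] at h4
      linarith
    · have h1 : ((c : ℝ) + 1) ≤ m := by exact_mod_cast hc
      have h2 : ((c : ℝ) + 1 - a g) * (Mg L R g / m) ≤ ((m : ℝ) - a g) * (Mg L R g / m) :=
        mul_le_mul_of_nonneg_right (by linarith) hη.le
      have h3 := hB.R_anti (Nat.zero_le g) hg.le
      have h4 : ((c : ℝ) + 1 - a g) * (Mg L R g / m) =
        ((c : ℝ) - a g) * (Mg L R g / m) + Mg L R g / m := by ring
      linarith

theorem Bands.corner_bounds (hB : Bands m J L R a) (hm : 1 ≤ m) {h S : ℕ} {g i s : ℕ} (k : ℕ)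
    (hg : g < J) (hi : i < m) (hs : s < S) :
    L 0 ≤ corner m h S L R a g i s k ∧ corner m h S L R a g i s k ≤ R 0 := by
  have hm' : (0 : ℝ) < m := by exact_mod_cast hm
  have hS' : (0 : ℝ) < S := by
    have : 0 < S := by omega
    exact_mod_cast this
  have hM := hB.mpos g hg
  have hη : 0 < Mg L R g / m := div_pos hM hm'
  have hδ : 0 < Mg L R g / m / S := div_pos hη hS'
  have hSδ : (S : ℝ) * (Mg L R g / m / S) = Mg L R g / m := by field_simp
  have hmη : (m : ℝ) * (Mg L R g / m) = Mg L R g := by field_simp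
  have hs1 : (s : ℝ) + 1 ≤ S := by exact_mod_cast hs
  have hs0 : (0 : ℝ) ≤ s := by positivity
  have hi1 : (i : ℝ) + 1 ≤ m := by exact_mod_cast hi
  have hi0 : (0 : ℝ) ≤ i := by positivity
  have up : ((s : ℝ) + 1) * (Mg L R g / m / S) ≤ Mg L R g / m := by
    exact (mul_le_mul_of_nonneg_right hs1 hδ.le).trans hSδ.le
  have up0 : 0 ≤ ((s : ℝ) + 1) * (Mg L R g / m / S) := by positivity
  have dn : ((S : ℝ) - s) * (Mg L R g / m / S) ≤ Mg L R g / m := by
    have : ((S : ℝ) - s) ≤ S := by linarith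
    exact (mul_le_mul_of_nonneg_right this hδ.le).trans hSδ.le
  have dn0 : 0 ≤ ((S : ℝ) - s) * (Mg L R g / m / S) := by
    apply mul_nonneg _ hδ.le
    linarith
  have hX := hB.Xg_ge hg.le
  have hX1 := hB.Xg_le (g := g + 1) hg
  rw [Xg_succ] at hX1
  unfold corner
  split_ifs with h1 h2 h3
  · obtain ⟨c1, c2⟩ := hB.cell hm hg (Nat.mod_lt (k % m + i) (by omega))
    constructor <;> linarith
  · obtain ⟨c1, c2⟩ := hB.cell hm hg (Nat.mod_lt (k % m + (m - i)) (by omega))
    constructor <;> linarith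
  · constructor
    · have : 0 ≤ ((i : ℝ) * S + s + 1) * (Mg L R g / m / S) := by positivity
      linarith
    · have e : ((i : ℝ) * S + s + 1) * (Mg L R g / m / S) =
          i * (Mg L R g / m) + (s + 1) * (Mg L R g / m / S) := by
        field_simp
        ring
      rw [e]
      have h4 : ((i : ℝ) + 1) * (Mg L R g / m) ≤ Mg L R g := by
        calc ((i : ℝ) + 1) * (Mg L R g / m) ≤ m * (Mg L R g / m) :=
              mul_le_mul_of_nonneg_right hi1 hη.le
          _ = _ := hmη
      linarith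
  · have e : (((m : ℝ) - 1 - i) * S + (S - s)) * (Mg L R g / m / S) =
        ((m : ℝ) - 1 - i) * (Mg L R g / m) + (S - s) * (Mg L R g / m / S) := by
      field_simp
    rw [e]
    have h4 : 0 ≤ ((m : ℝ) - 1 - i) * (Mg L R g / m) := mul_nonneg (by linarith) hη.le
    have h5 : ((m : ℝ) - i) * (Mg L R g / m) ≤ Mg L R g := by
      calc ((m : ℝ) - i) * (Mg L R g / m) ≤ m * (Mg L R g / m) :=
            mul_le_mul_of_nonneg_right (by linarith) hη.le
        _ = _ := hmη
    constructor
    · linarith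
    · linarith

end Pool.Agent.H54Sharp
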