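import Pool.Agent.H54Sharp.Bounds

set_option autoImplicit false

namespace Pool.Agent.H54Sharp

open MeasureTheory Finset Filter Topology Pool.Agent.Helper43.Copula

theorem volume_Icc_zero {n : ℕ} {b : Fin n → ℝ} (hb : ∀ k, 0 ≤ b k) :
    volume (Set.Icc (0 : Fin n → ℝ) b) = ENNReal.ofReal (∏ k, b k) := by
  rw [Real.volume_Icc_pi, ← ENNReal.ofReal_prod_of_nonneg]
  · congr 1
    refine prod_congr rfl fun k _ => ?_
    simp
  · intro k _
    simpa using hb k

theorem core (U1 : Dominance) (U2 : PathLemma) (U3 : ColumnRow) (U4 : VolumeRow) (U5 : MoveRow)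
    {n m h r J : ℕ} (hn : m * (2 * h) + r = n) (hm : 1 ≤ m) (hh : 1 ≤ h) (hr : r < 2 * h)
    {I : Type} [Fintype I] {lam : I → ℝ} {b : I → Fin n → ℝ}
    {L R : ℕ → ℝ} {a : ℕ → ℕ} {y : ℕ → ℝ}
    (hlam : ∀ i, 0 < lam i) (hb0 : ∀ i k, 0 < b i k) (hb1 : ∀ i k, b i k ≤ 1)
    (hsum : ∑ i, lam i = L 0 + 1 - R 0)
    (hdom : ∀ k, ∀ t : ℝ, 0 ≤ t → t ≤ 1 →
      ∑ i, lam i * (if b i k ≤ t then 1 else 0) ≤ min t (L 0) + max 0 (t - R 0))
    (hB : Bands m J L R a) (hT : Tuned m (2 * h) r J L R y) :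
    1 - (maxAgreement n).toReal ≤ ∑ i, ∏ k, b i k +
      ∑ g ∈ range J, m * (Real.exp (-(n : ℝ) + y g + 4 * h * (Mg L R g / L 0) ^ 2 +
        Mg L R g / L 0 + 4 * h * Mg L R g / (m * L 0)) *
        (1 + (h * Wg L R g + 2 * h * Mg L R g / (m * L 0)))) := by
  classical
  have hn1 : 1 ≤ n := by
    have : 1 ≤ m * (2 * h) := Nat.mul_pos (by omega) (by omega)
    omega
  have hm' : (0 : ℝ) < m := by exact_mod_cast hm
  have hpos := hB.pos
  set lam' : I ⊕ (Fin J × Fin m × Fin m) → ℝ := Sum.elim lam (fun d => Mg L R d.1 / m / m) with hlam'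
  set b' : I ⊕ (Fin J × Fin m × Fin m) → Fin n → ℝ :=
    Sum.elim b (fun d k => corner m h m L R a d.1 d.2.1 d.2.2 k) with hb'
  have hcb : ∀ (d : Fin J × Fin m × Fin m) (k : Fin n), L 0 ≤ corner m h m L R a d.1 d.2.1 d.2.2 k ∧
      corner m h m L R a d.1 d.2.1 d.2.2 k ≤ R 0 := fun d k =>
    hB.corner_bounds hm k d.1.isLt d.2.1.isLt d.2.2.isLt
  have hR0 : L 0 ≤ R 0 := by
    have h1 := hB.L_mono (Nat.zero_le J) le_rfl
    have h2 := hB.R_anti (Nat.zero_le J) le_rfl
    rw [hB.meet] at h1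
    linarith
  have k1 : ∀ i, 0 < lam' i := by
    rintro (i | d)
    · exact hlam i
    · exact div_pos (div_pos (hB.mpos _ d.1.isLt) hm') hm'
  have k2 : ∀ i k, 0 ≤ b' i k := by
    rintro (i | d) k
    · exact (hb0 i k).le
    · exact hpos.le.trans (hcb d k).1
  have k3 : ∀ i k, b' i k ≤ 1 := by
    rintro (i | d) k
    · exact hb1 i k
    · exact (hcb d k).2.trans hB.le_one
  have sumD : ∀ f : ℕ → ℕ → ℕ → ℝ, ∑ d : Fin J × Fin m × Fin m, f d.1 d.2.1 d.2.2 =
      ∑ g ∈ range J, ∑ i ∈ range m, ∑ s ∈ range m, f g i s := by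
    intro f
    rw [Fintype.sum_prod_type, ← Fin.sum_univ_eq_sum_range
      (fun g => ∑ i ∈ range m, ∑ s ∈ range m, f g i s) J]
    apply sum_congr rfl
    intro g _
    rw [Fintype.sum_prod_type, ← Fin.sum_univ_eq_sum_range
      (fun i => ∑ s ∈ range m, f g i s) m]
    apply sum_congr rfl
    intro i _
    rw [← Fin.sum_univ_eq_sum_range (fun s => f g i s) m]
  have k4 : ∑ i, lam' i = 1 := by
    rw [Fintype.sum_sum_type]
    simp only [hlam', Sum.elim_inl, Sum.elim_inr]
    rw [hsum, sumD (fun g _ _ => Mg L R g / m / m)]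
    simp only [sum_const, card_range, nsmul_eq_mul]
    have e : ∀ g, (m : ℝ) * (m * (Mg L R g / m / m)) = Mg L R g := by
      intro g
      field_simp
    simp only [e]
    rw [hB.sum_Mg_eq]
    ring
  have k5 : ∀ k, ∀ t : ℝ, 0 ≤ t → t ≤ 1 →
      ∑ i, lam' i * (if b' i k ≤ t then 1 else 0) ≤ t := by
    intro k t ht0 ht1
    rw [Fintype.sum_sum_type]
    simp only [hlam', hb', Sum.elim_inl, Sum.elim_inr]
    rw [sumD (fun g i s => Mg L R g / m / m *
      (if corner m h m L R a g i s k ≤ t then 1 else 0))]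
    have h1 := hdom k t ht0 ht1
    have h2 := U3 m h m J L R a hm hm hB k t
    have h3 : min t (L 0) + max 0 (t - R 0) + max 0 (min t (R 0) - L 0) ≤ t := by
      rcases le_total t (L 0) with h4 | h4
      · rw [min_eq_left h4, min_eq_left (h4.trans hR0), max_eq_left (by linarith),
          max_eq_left (by linarith)]
        linarith
      · rcases le_total t (R 0) with h5 | h5
        · rw [min_eq_right h4, min_eq_left h5, max_eq_left (by linarith),
            max_eq_right (by linarith)]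
          linarith
        · rw [min_eq_right h4, min_eq_right h5, max_eq_right (by linarith),
            max_eq_right (by linarith)]
          linarith
    linarith
  have main := U1 n hn1 (I ⊕ (Fin J × Fin m × Fin m)) lam' b' k1 k2 k3 k4 k5
  refine main.trans ?_
  -- the union
  set Z : Fin J × Fin m → Set (Fin n → ℝ) := fun p =>
    ⋃ s ∈ range m, Set.Icc (0 : Fin n → ℝ) (fun k => corner m h m L R a p.1 p.2 s k) with hZ
  have hsub : (⋃ i, Set.Icc (0 : Fin n → ℝ) (b' i)) ⊆
      (⋃ i, Set.Icc (0 : Fin n → ℝ) (b i)) ∪ ⋃ p, Z p := by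
    apply Set.iUnion_subset
    rintro (i | d)
    · exact (Set.subset_iUnion (fun i => Set.Icc (0 : Fin n → ℝ) (b i)) i).trans
        Set.subset_union_left
    · refine Set.Subset.trans ?_ Set.subset_union_right
      refine Set.Subset.trans ?_ (Set.subset_iUnion Z (d.1, d.2.1))
      intro x hx
      simp only [hZ, Set.mem_iUnion]
      exact ⟨d.2.2, mem_range.mpr d.2.2.isLt, hx⟩
  set Vb : ℕ → ℝ := fun g => Real.exp (-(n : ℝ) + y g + 4 * h * (Mg L R g / L 0) ^ 2 +
        Mg L R g / L 0 + 4 * h * Mg L R g / (m * L 0)) with hVb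
  set Ub : ℕ → ℝ := fun g => h * Wg L R g + 2 * h * Mg L R g / (m * L 0) with hUb
  have hpath : ∀ p : Fin J × Fin m, volume (Z p) ≤ ENNReal.ofReal (Vb p.1 * (1 + Ub p.1)) := by
    intro p
    have hc : ∀ s < m, ∀ k : Fin n, L 0 ≤ corner m h m L R a p.1 p.2 s k ∧
        corner m h m L R a p.1 p.2 s k ≤ R 0 := fun s hs k =>
      hB.corner_bounds hm k p.1.isLt p.2.isLt hs
    have h1 := U2 n m (fun s k => corner m h m L R a p.1 p.2 s k) (Vb p.1)
      (fun s hs k => lt_of_lt_of_le hpos (hc s hs k).1) (by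
        intro s hs
        have h2 := U4 m h r m J L R a y hm hm hh hr hB hT p.1 p.1.isLt p.2 p.2.isLt s hs
        rw [hn] at h2
        rw [hVb]
        refine le_trans (le_of_eq ?_) h2
        rw [← Fin.prod_univ_eq_prod_range (fun k => corner m h m L R a p.1 p.2 s k) n])
      (Real.exp_pos _).le
    have h2 := U5 m h r m J L R a hm hm hh hr hB p.1 p.1.isLt p.2 p.2.isLt
    rw [hn] at h2
    have h3 : ∑ s ∈ range (m - 1), ∑ k : Fin n,
        max 0 (Real.log (corner m h m L R a p.1 p.2 (s + 1) k) -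
          Real.log (corner m h m L R a p.1 p.2 s k)) ≤ Ub p.1 := by
      refine le_trans (le_of_eq ?_) h2
      apply sum_congr rfl
      intro s _
      rw [← Fin.sum_univ_eq_sum_range (fun k => max 0 (Real.log
        (corner m h m L R a p.1 p.2 (s + 1) k) - Real.log (corner m h m L R a p.1 p.2 s k))) n]
    have h4 : volume (Z p) ≠ ⊤ := by
      have : Z p ⊆ cube n := by
        intro x hx
        simp only [hZ, Set.mem_iUnion] at hx
        obtain ⟨s, hs, hx⟩ := hx
        intro k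
        exact ⟨hx.1 k, (hx.2 k).trans (((hc s (mem_range.mp hs) k).2).trans hB.le_one)⟩
      refine ne_top_of_le_ne_top ?_ (measure_mono this)
      rw [volume_cube]; simp
    have h5 : 0 ≤ Ub p.1 := le_trans (sum_nonneg fun s _ => sum_nonneg fun k _ =>
      le_max_left _ _) h3
    have h6 : 0 ≤ Vb p.1 * (1 + Ub p.1) := mul_nonneg (Real.exp_pos _).le (by linarith)
    rw [ENNReal.le_ofReal_iff_toReal_le h4 h6]
    refine h1.trans ?_
    exact mul_le_mul_of_nonneg_left (by linarith) (Real.exp_pos _).le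
  have hU : ∀ g < J, 0 ≤ 1 + Ub g := by
    intro g hg
    have h2 := U5 m h r m J L R a hm hm hh hr hB g hg 0 (by omega)
    have h5 : 0 ≤ Ub g := le_trans (sum_nonneg fun s _ => sum_nonneg fun k _ =>
      le_max_left _ _) h2
    linarith
  have hfin : volume (⋃ i, Set.Icc (0 : Fin n → ℝ) (b' i)) ≤
      ENNReal.ofReal (∑ i, ∏ k, b i k + ∑ g ∈ range J, m * (Vb g * (1 + Ub g))) := by
    calc volume (⋃ i, Set.Icc (0 : Fin n → ℝ) (b' i))
        ≤ volume ((⋃ i, Set.Icc (0 : Fin n → ℝ) (b i)) ∪ ⋃ p, Z p) := measure_mono hsub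
      _ ≤ volume (⋃ i, Set.Icc (0 : Fin n → ℝ) (b i)) + volume (⋃ p, Z p) :=
          measure_union_le _ _
      _ ≤ ∑ i, volume (Set.Icc (0 : Fin n → ℝ) (b i)) + ∑ p, volume (Z p) :=
          add_le_add (measure_iUnion_fintype_le _ _) (measure_iUnion_fintype_le _ _)
      _ ≤ ∑ i, ENNReal.ofReal (∏ k, b i k) +
          ∑ p : Fin J × Fin m, ENNReal.ofReal (Vb p.1 * (1 + Ub p.1)) := by
          apply add_le_add
          · exact sum_le_sum fun i _ => (volume_Icc_zero fun k => (hb0 i k).le).le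
          · exact sum_le_sum fun p _ => hpath p
      _ = _ := by
          rw [← ENNReal.ofReal_sum_of_nonneg (fun i _ => prod_nonneg fun k _ => (hb0 i k).le),
            ← ENNReal.ofReal_sum_of_nonneg (fun p _ => mul_nonneg (Real.exp_pos _).le
              (hU p.1 p.1.isLt)), ← ENNReal.ofReal_add]
          · congr 2
            rw [Fintype.sum_prod_type, ← Fin.sum_univ_eq_sum_range
              (fun g => m * (Vb g * (1 + Ub g))) J]
            apply sum_congr rfl
            intro g _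
            change ∑ _y : Fin m, Vb g * (1 + Ub g) = (m : ℝ) * (Vb g * (1 + Ub g))
            rw [sum_const, card_univ, Fintype.card_fin, nsmul_eq_mul]
          · exact sum_nonneg fun i _ => prod_nonneg fun k _ => (hb0 i k).le
          · exact sum_nonneg fun p _ => mul_nonneg (Real.exp_pos _).le (hU p.1 p.1.isLt)
  refine ENNReal.toReal_le_of_le_ofReal ?_ hfin
  apply add_nonneg
  · exact sum_nonneg fun i _ => prod_nonneg fun k _ => (hb0 i k).le
  · exact sum_nonneg fun g hg => mul_nonneg hm'.le (mul_nonneg (Real.exp_pos _).le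
      (hU g (mem_range.mp hg)))

end Pool.Agent.H54Sharp
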