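import Pool.Agent.H54Sharp.Stmt

set_option autoImplicit false

namespace Pool.Agent.H54Sharp

open Filter Topology Pool.Agent.Helper43.Copula

theorem tendsto_of_halves (hU : UpperHalf) (hL : LowerHalf) :
    Tendsto (fun n : ℕ => (1 - (maxAgreement n).toReal) * Real.exp n / n) atTop
      (𝓝 (Real.exp (1 + Real.eulerMascheroniConstant) / 2)) := by
  set K₀ := Real.exp (1 + Real.eulerMascheroniConstant) / 2 with hK₀
  refine tendsto_order.mpr ⟨fun a ha => ?_, fun b hb => ?_⟩
  · have h1 := hL ((a + K₀) / 2) (by linarith)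
    filter_upwards [h1, eventually_ge_atTop 1] with n hn hn1
    have hn' : (0 : ℝ) < n := by exact_mod_cast hn1
    have h2 : (a + K₀) / 2 ≤ (1 - (maxAgreement n).toReal) * Real.exp n / n := by
      rw [le_div_iff₀ hn']
      calc (a + K₀) / 2 * n = (a + K₀) / 2 * n * Real.exp (-(n : ℝ)) * Real.exp n := by
            rw [mul_assoc _ (Real.exp _) (Real.exp _), ← Real.exp_add, neg_add_cancel,
              Real.exp_zero, mul_one]
        _ ≤ _ := mul_le_mul_of_nonneg_right hn (Real.exp_pos _).le
    linarith
  · have h1 := hU ((b + K₀) / 2) (by linarith)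
    filter_upwards [h1, eventually_ge_atTop 1] with n hn hn1
    have hn' : (0 : ℝ) < n := by exact_mod_cast hn1
    have h2 : (1 - (maxAgreement n).toReal) * Real.exp n / n ≤ (b + K₀) / 2 := by
      rw [div_le_iff₀ hn']
      calc (1 - (maxAgreement n).toReal) * Real.exp n ≤
          (b + K₀) / 2 * n * Real.exp (-(n : ℝ)) * Real.exp n :=
            mul_le_mul_of_nonneg_right hn (Real.exp_pos _).le
        _ = _ := by
            rw [mul_assoc _ (Real.exp _) (Real.exp _), ← Real.exp_add, neg_add_cancel,
              Real.exp_zero, mul_one]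
    linarith

end Pool.Agent.H54Sharp
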