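import Pool.Agent.Helper3.Cop.Bound

/-!
# Statements of the rows of the upper half of `1 - s_n ~ (exp (1 + γ) / 2) n exp (-n)`

Flipped coordinates `p = 1 - x`.  Each row is a proposition; the row file proves it.
-/

set_option autoImplicit false

namespace Pool.Agent.H54Sharp

open MeasureTheory Finset Filter Topology Pool.Agent.Helper43.Copula

/-- (U1) general dominance -/
def Dominance : Prop :=
  ∀ (n : ℕ), 1 ≤ n → ∀ (I : Type) [Fintype I] (lam : I → ℝ) (b : I → Fin n → ℝ),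
    (∀ i, 0 < lam i) → (∀ i k, 0 ≤ b i k) → (∀ i k, b i k ≤ 1) → ∑ i, lam i = 1 →
    (∀ k, ∀ t : ℝ, 0 ≤ t → t ≤ 1 → ∑ i, lam i * (if b i k ≤ t then 1 else 0) ≤ t) →
    1 - (maxAgreement n).toReal ≤ (volume (⋃ i, Set.Icc (0 : Fin n → ℝ) (b i))).toReal

/-- (U2) the union of the boxes along a path -/
def PathLemma : Prop :=
  ∀ (n S : ℕ) (b : ℕ → Fin n → ℝ) (V : ℝ), (∀ s < S, ∀ k, 0 < b s k) →
    (∀ s < S, ∏ k, b s k ≤ V) → 0 ≤ V →
    (volume (⋃ s ∈ range S, Set.Icc (0 : Fin n → ℝ) (b s))).toReal ≤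
      V * (1 + ∑ s ∈ range (S - 1), ∑ k, max 0 (Real.log (b (s + 1) k) - Real.log (b s k)))

/-- (U6) the part near `0` and near `1` -/
def Crude : Prop :=
  ∀ ε : ℝ, 0 < ε → ∃ l : ℝ, 0 < l ∧ ∀ L₀ R₀ : ℝ, 0 < L₀ → L₀ ≤ l → Real.exp (-1) < R₀ → R₀ < 1 →
    Real.negMulLog R₀ = Real.negMulLog L₀ → ∃ C : ℝ, 0 < C ∧ ∀ᶠ n : ℕ in atTop,
      ∃ (R' : ℝ) (I : Type) (_ : Fintype I) (lam : I → ℝ) (b : I → Fin n → ℝ),
        R₀ ≤ R' ∧ R' ≤ R₀ + C / n ∧ R' < 1 ∧ (∀ i, 0 < lam i) ∧ (∀ i k, 0 < b i k) ∧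
        (∀ i k, b i k ≤ 1) ∧ ∑ i, lam i = L₀ + 1 - R' ∧
        (∀ k, ∀ t : ℝ, 0 ≤ t → t ≤ 1 →
          ∑ i, lam i * (if b i k ≤ t then 1 else 0) ≤ min t L₀ + max 0 (t - R')) ∧
        ∑ i, ∏ k, b i k ≤ ε * n * Real.exp (-n) ∧
        n * (Real.negMulLog L₀ - Real.negMulLog R') ≤ ε

/-- measure of the band `[L g, L (g+1)] ∪ [R (g+1), R g]` -/
noncomputable def Mg (L R : ℕ → ℝ) (g : ℕ) : ℝ := (L (g + 1) - L g) + (R g - R (g + 1))

/-- left end of the place of the band in the extra columns -/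
noncomputable def Xg (L R : ℕ → ℝ) (g : ℕ) : ℝ := L 0 + ∑ h ∈ range g, Mg L R h

/-- primitive of the logarithm -/
noncomputable def Fl (p : ℝ) : ℝ := p * Real.log p - p

/-- the integral of `1 / p` over the band -/
noncomputable def Wg (L R : ℕ → ℝ) (g : ℕ) : ℝ :=
  (Real.log (L (g + 1)) - Real.log (L g)) + (Real.log (R g) - Real.log (R (g + 1)))

/-- `J` bands, each divided into `m` cells of equal length, `a g` of them on the left -/
structure Bands (m J : ℕ) (L R : ℕ → ℝ) (a : ℕ → ℕ) : Prop where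
  pos : 0 < L 0
  mono : ∀ g < J, L g ≤ L (g + 1)
  anti : ∀ g < J, R (g + 1) ≤ R g
  meet : L J = R J
  mpos : ∀ g < J, 0 < Mg L R g
  ale : ∀ g < J, a g ≤ m
  left : ∀ g < J, (L (g + 1) - L g) * m = a g * Mg L R g
  le_one : R 0 ≤ 1

/-- `y g` is `n` plus the sum of the logarithms of the coordinates of a point of the band, with
`m * q` main columns and `r` extra columns -/
def Tuned (m q r J : ℕ) (L R : ℕ → ℝ) (y : ℕ → ℝ) : Prop :=
  ∀ g < J, ((m * q : ℕ) : ℝ) *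
    ((Fl (L (g + 1)) - Fl (L g)) + (Fl (R g) - Fl (R (g + 1)))) +
    r * (Fl (Xg L R (g + 1)) - Fl (Xg L R g)) = (-((m * q + r : ℕ) : ℝ) + y g) * Mg L R g

/-- (U5) existence of the bands -/
def BandsRow : Prop :=
  ∀ ε : ℝ, 0 < ε → ∃ l : ℝ, 0 < l ∧ ∀ L₀ R₀ : ℝ, 0 < L₀ → L₀ ≤ l → Real.exp (-1) < R₀ → R₀ < 1 →
    Real.negMulLog R₀ = Real.negMulLog L₀ → ∃ K : ℝ, 0 < K ∧ ∀ᶠ J : ℕ in atTop,
      ∀ q r : ℕ, 1 ≤ q → r < q → ∀ C : ℝ, 0 < C → ∀ᶠ m : ℕ in atTop, ∀ R' : ℝ, R₀ ≤ R' →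
        R' ≤ R₀ + C / ((m * q + r : ℕ) : ℝ) → R' < 1 →
        ((m * q + r : ℕ) : ℝ) * (Real.negMulLog L₀ - Real.negMulLog R') ≤ l →
        ∃ (L R : ℕ → ℝ) (a : ℕ → ℕ) (y : ℕ → ℝ), Bands m J L R a ∧ L 0 = L₀ ∧ R 0 = R' ∧
          Tuned m q r J L R y ∧ ∀ g < J, Mg L R g ≤ K / J ∧
            Real.exp (y g) ≤ Real.exp (1 + Real.eulerMascheroniConstant + ε) ∧
            Real.exp (y g) * Wg L R g ≤
              Real.exp (1 + Real.eulerMascheroniConstant + ε) * Mg L R g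

/-- left end of the cell `c` of the band `g` -/
noncomputable def cellLeft (m : ℕ) (L R : ℕ → ℝ) (a : ℕ → ℕ) (g c : ℕ) : ℝ :=
  if c < a g then L g + c * (Mg L R g / m) else R (g + 1) + ((c : ℝ) - a g) * (Mg L R g / m)

/-- corner of the box of the row `(g, i)` at the step `s`, coordinate `k`; there are `m * (2 * h)`
main columns, column `k` has phase `k % m` and goes up for `k / m < h` and down otherwise -/
noncomputable def corner (m h S : ℕ) (L R : ℕ → ℝ) (a : ℕ → ℕ) (g i s k : ℕ) : ℝ :=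
  if k < m * (2 * h) then
    if k / m < h then
      cellLeft m L R a g ((k % m + i) % m) + ((s : ℝ) + 1) * (Mg L R g / m / S)
    else
      cellLeft m L R a g ((k % m + (m - i)) % m) + ((S : ℝ) - s) * (Mg L R g / m / S)
  else if (k - m * (2 * h)) % 2 = 0 then
    Xg L R g + ((i : ℝ) * S + s + 1) * (Mg L R g / m / S)
  else
    Xg L R g + (((m : ℝ) - 1 - i) * S + (S - s)) * (Mg L R g / m / S)

/-- (U3) column dominance of the main part -/
def ColumnRow : Prop :=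
  ∀ (m h S J : ℕ) (L R : ℕ → ℝ) (a : ℕ → ℕ), 1 ≤ m → 1 ≤ S → Bands m J L R a → ∀ (k : ℕ) (t : ℝ),
    ∑ g ∈ range J, ∑ i ∈ range m, ∑ s ∈ range S, (Mg L R g / m / S) *
      (if corner m h S L R a g i s k ≤ t then 1 else 0) ≤ max 0 (min t (R 0) - L 0)

/-- (U4) volume of the boxes of a row -/
def VolumeRow : Prop :=
  ∀ (m h r S J : ℕ) (L R : ℕ → ℝ) (a : ℕ → ℕ) (y : ℕ → ℝ), 1 ≤ m → 1 ≤ S → 1 ≤ h → r < 2 * h →
    Bands m J L R a → Tuned m (2 * h) r J L R y → ∀ g < J, ∀ i < m, ∀ s < S,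
      ∏ k ∈ range (m * (2 * h) + r), corner m h S L R a g i s k ≤
        Real.exp (-((m * (2 * h) + r : ℕ) : ℝ) + y g + 4 * h * (Mg L R g / L 0) ^ 2 +
          Mg L R g / L 0 + 4 * h * Mg L R g / (S * L 0))

/-- (U4) upward movement along a row -/
def MoveRow : Prop :=
  ∀ (m h r S J : ℕ) (L R : ℕ → ℝ) (a : ℕ → ℕ), 1 ≤ m → 1 ≤ S → 1 ≤ h → r < 2 * h →
    Bands m J L R a → ∀ g < J, ∀ i < m,
      ∑ s ∈ range (S - 1), ∑ k ∈ range (m * (2 * h) + r),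
        max 0 (Real.log (corner m h S L R a g i (s + 1) k) -
          Real.log (corner m h S L R a g i s k)) ≤
        h * Wg L R g + 2 * h * Mg L R g / (m * L 0)

/-- the upper half -/
def UpperHalf : Prop :=
  ∀ K : ℝ, Real.exp (1 + Real.eulerMascheroniConstant) / 2 < K → ∀ᶠ n : ℕ in atTop,
    1 - (maxAgreement n).toReal ≤ K * n * Real.exp (-n)

/-- the lower half -/
def LowerHalf : Prop :=
  ∀ K : ℝ, K < Real.exp (1 + Real.eulerMascheroniConstant) / 2 → ∀ᶠ n : ℕ in atTop,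
    K * n * Real.exp (-n) ≤ 1 - (maxAgreement n).toReal

end Pool.Agent.H54Sharp
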