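import Pool.Agent.H54Sharp.Core

set_option autoImplicit false

namespace Pool.Agent.H54Sharp

open MeasureTheory Finset Filter Topology Pool.Agent.Helper43.Copula

theorem exists_eps {c K : ℝ} (hK : Real.exp c / 2 < K) : ∃ ε : ℝ, 0 < ε ∧ ε ≤ 1 ∧
    ε + Real.exp (3 * ε) * Real.exp (c + ε) * (1 / 2 + 3 / 2 * ε) ≤ K := by
  have hc : Continuous (fun ε : ℝ => ε + Real.exp (3 * ε) * Real.exp (c + ε) *
      (1 / 2 + 3 / 2 * ε)) := by fun_prop
  have h0 := hc.tendsto 0
  have h1 : (0 : ℝ) + Real.exp (3 * 0) * Real.exp (c + 0) * (1 / 2 + 3 / 2 * 0) < K := by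
    simp only [mul_zero, Real.exp_zero, add_zero, zero_add, one_mul]
    linarith
  have h2 := h0.eventually (gt_mem_nhds h1)
  obtain ⟨ε, h3, h4⟩ := ((h2.filter_mono nhdsWithin_le_nhds).and
    (Ioc_mem_nhdsGT (show (0 : ℝ) < 1 by norm_num))).exists
  exact ⟨ε, h4.1, h4.2, h3.le⟩

theorem exists_partner {l : ℝ} (h0 : 0 < l) (h1 : l < Real.exp (-1)) :
    ∃ r : ℝ, Real.exp (-1) < r ∧ r < 1 ∧ Real.negMulLog r = Real.negMulLog l := by
  have e1 : Real.negMulLog (Real.exp (-1)) = Real.exp (-1) := by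
    unfold Real.negMulLog
    rw [Real.log_exp]
    ring
  have e2 : Real.exp (-1) < 1 := by
    rw [Real.exp_lt_one_iff]
    norm_num
  have h2 : 0 < Real.negMulLog l := by
    unfold Real.negMulLog
    have : Real.log l < 0 := Real.log_neg h0 (h1.trans e2)
    nlinarith
  have h3 : Real.negMulLog l < Real.exp (-1) := by
    have h4 : -Real.log l - 1 ≠ 0 := by
      intro h5
      have h6 : Real.log l = -1 := by linarith
      have h7 : l = Real.exp (-1) := by rw [← h6, Real.exp_log h0]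
      exact absurd h7 h1.ne
    have h5 := Real.add_one_lt_exp h4
    have h6 : Real.exp (-Real.log l - 1) = l⁻¹ * Real.exp (-1) := by
      rw [sub_eq_add_neg, Real.exp_add, Real.exp_neg, Real.exp_log h0]
    rw [h6] at h5
    have h7 : l * (-Real.log l - 1 + 1) < l * (l⁻¹ * Real.exp (-1)) :=
      mul_lt_mul_of_pos_left h5 h0
    rw [← mul_assoc, mul_inv_cancel₀ h0.ne', one_mul] at h7
    unfold Real.negMulLog
    linarith
  have hcont : ContinuousOn Real.negMulLog (Set.Icc (Real.exp (-1)) 1) :=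
    Real.continuous_negMulLog.continuousOn
  have h4 := intermediate_value_Icc' e2.le hcont
  have h5 : Real.negMulLog l ∈ Set.Icc (Real.negMulLog 1) (Real.negMulLog (Real.exp (-1))) := by
    rw [e1, Real.negMulLog_one]
    exact ⟨h2.le, h3.le⟩
  obtain ⟨r, ⟨hr1, hr2⟩, hr3⟩ := h4 h5
  refine ⟨r, lt_of_le_of_ne hr1 ?_, lt_of_le_of_ne hr2 ?_, hr3⟩
  · intro h
    rw [← h, e1] at hr3
    linarith
  · intro h
    rw [h, Real.negMulLog_one] at hr3
    linarith

theorem Bands.Wg_nonneg {m J : ℕ} {L R : ℕ → ℝ} {a : ℕ → ℕ} (hB : Bands m J L R a) {g : ℕ}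
    (hg : g < J) : 0 ≤ Wg L R g := by
  have h1 := hB.L_mono (Nat.zero_le g) hg.le
  have h2 := hB.pos
  have h3 := hB.R_anti (g := g + 1) (g' := J) hg le_rfl
  have h4 := hB.L_mono (Nat.zero_le J) le_rfl
  rw [hB.meet] at h4
  have h5 := Real.log_le_log (h2.trans_le h1) (hB.mono g hg)
  have h6 := Real.log_le_log (h2.trans_le (h4.trans h3)) (hB.anti g hg)
  unfold Wg
  linarith

theorem tendsto_div_nat {q : ℕ} (hq : 0 < q) : Tendsto (fun n : ℕ => n / q) atTop atTop := by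
  apply tendsto_atTop_atTop.mpr
  intro b
  refine ⟨b * q, fun n hn => ?_⟩
  exact (Nat.le_div_iff_mul_le hq).mpr hn

theorem upperHalf (U1 : Dominance) (U2 : PathLemma) (U3 : ColumnRow) (U4 : VolumeRow)
    (U4' : MoveRow) (U5 : BandsRow) (U6 : Crude) : UpperHalf := by
  intro K hK
  obtain ⟨ε, hε, hε1, hεK⟩ := exists_eps hK
  obtain ⟨l5, hl5, H5⟩ := U5 ε hε
  obtain ⟨l6, hl6, H6⟩ := U6 (min ε l5) (lt_min hε hl5)
  obtain ⟨l, hl0, hla, hlb, hlc⟩ : ∃ l : ℝ, 0 < l ∧ l ≤ l5 ∧ l ≤ l6 ∧ l < Real.exp (-1) := by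
    refine ⟨min (min l5 l6) (Real.exp (-2)), lt_min (lt_min hl5 hl6) (Real.exp_pos _),
      (min_le_left _ _).trans (min_le_left _ _), (min_le_left _ _).trans (min_le_right _ _),
      lt_of_le_of_lt (min_le_right _ _) ?_⟩
    exact Real.exp_lt_exp.mpr (by norm_num)
  obtain ⟨R₀, hR1, hR2, hR3⟩ := exists_partner hl0 hlc
  obtain ⟨C, hC, H6⟩ := H6 l R₀ hl0 hlb hR1 hR2 hR3
  obtain ⟨K5, hK5, H5⟩ := H5 l R₀ hl0 hla hR1 hR2 hR3
  -- the number `s`
  obtain ⟨s, hs1, hs2⟩ : ∃ s : ℕ, 1 ≤ s ∧ 1 ≤ ε * s := by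
    obtain ⟨s, hs⟩ := exists_nat_ge (1 / ε)
    rw [div_le_iff₀ hε] at hs
    refine ⟨s, ?_, by linarith⟩
    by_contra hc
    have : s = 0 := by omega
    subst this
    norm_num at hs
  have hs' : (0 : ℝ) < s := by exact_mod_cast hs1
  -- the number `J` of bands
  have hinv : ∀ c : ℝ, Tendsto (fun N : ℕ => c / (N : ℝ)) atTop (𝓝 0) := fun c =>
    tendsto_const_div_atTop_nhds_zero_nat c
  obtain ⟨J, ⟨⟨HJ, hJ1⟩, hJ2⟩, hJ3⟩ := (((H5.and (eventually_ge_atTop 1)).and
    ((hinv (4 * s * K5 ^ 2 / l ^ 2)).eventually (gt_mem_nhds hε))).and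
    ((hinv (K5 / l)).eventually (gt_mem_nhds hε))).exists
  have hJ' : (0 : ℝ) < J := by exact_mod_cast hJ1
  set h : ℕ := J * s with hh
  have hh1 : 1 ≤ h := Nat.mul_pos hJ1 hs1
  have hh' : (0 : ℝ) < h := by exact_mod_cast hh1
  have hhc : (h : ℝ) = J * s := by rw [hh]; push_cast; ring
  have Hm : ∀ᶠ m : ℕ in atTop, ∀ r : Fin (2 * h), ∀ R' : ℝ, R₀ ≤ R' →
        R' ≤ R₀ + C / ((m * (2 * h) + r : ℕ) : ℝ) → R' < 1 →
        ((m * (2 * h) + r : ℕ) : ℝ) * (Real.negMulLog l - Real.negMulLog R') ≤ l5 →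
        ∃ (L R : ℕ → ℝ) (a : ℕ → ℕ) (y : ℕ → ℝ), Bands m J L R a ∧ L 0 = l ∧ R 0 = R' ∧
          Tuned m (2 * h) r J L R y ∧ ∀ g < J, Mg L R g ≤ K5 / J ∧
            Real.exp (y g) ≤ Real.exp (1 + Real.eulerMascheroniConstant + ε) ∧
            Real.exp (y g) * Wg L R g ≤
              Real.exp (1 + Real.eulerMascheroniConstant + ε) * Mg L R g := by
    rw [eventually_all]
    intro r
    exact HJ (2 * h) r (by omega) r.isLt C hC
  have ht := tendsto_div_nat (show 0 < 2 * h by omega)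
  have Hn := ht.eventually Hm
  have Hn2 := (tendsto_natCast_atTop_atTop (R := ℝ)).comp ht
  filter_upwards [H6, Hn, ht.eventually (eventually_ge_atTop 1),
    Hn2.eventually (eventually_ge_atTop (4 * h * K5 / (l * ε))),
    (tendsto_natCast_atTop_atTop (R := ℝ)).eventually
      (eventually_ge_atTop (2 * h / (l * ε)))] with n h6 h5 hm1 hm2 hn2
  obtain ⟨R', I, _, lam, b, c1, c2, c3, hlam, hb0, hb1, hsum, hdom, hcost, hT0⟩ := h6
  set m := n / (2 * h) with hm
  set r := n % (2 * h) with hr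
  have hn : m * (2 * h) + r = n := by
    rw [mul_comm]
    exact Nat.div_add_mod n (2 * h)
  have hrlt : r < 2 * h := Nat.mod_lt _ (by omega)
  have h5' := h5 ⟨r, hrlt⟩ R' c1
  simp only [hn] at h5'
  obtain ⟨L, R, a, y, hB, hL, hR, hT, hfin⟩ := h5' c2 c3 (hT0.trans (min_le_right _ _))
  have hm' : (0 : ℝ) < m := by exact_mod_cast hm1
  have hcore := core U1 U2 U3 U4 U4' hn hm1 hh1 hrlt hlam hb0 hb1 (by rw [hL, hR]; exact hsum)
    (by rw [hL, hR]; exact hdom) hB hT
  refine hcore.trans ?_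
  have hnn : (m : ℝ) * (2 * h) + r = n := by exact_mod_cast hn
  have hn0 : (0 : ℝ) ≤ n := by positivity
  have hr0 : (0 : ℝ) ≤ r := by positivity
  set E := Real.exp (1 + Real.eulerMascheroniConstant + ε) with hE
  have hE0 : 0 < E := Real.exp_pos _
  set en := Real.exp (-(n : ℝ)) with hen
  have hen0 : 0 < en := Real.exp_pos _
  set e3 := Real.exp (3 * ε) with he3
  have he30 : 0 < e3 := Real.exp_pos _
  rw [hL] 
  -- one band
  have hband : ∀ g ∈ range J, (m : ℝ) * (Real.exp (-(n : ℝ) + y g +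
      4 * h * (Mg L R g / l) ^ 2 + Mg L R g / l + 4 * h * Mg L R g / (m * l)) *
      (1 + (h * Wg L R g + 2 * h * Mg L R g / (m * l)))) ≤
      en * e3 * E * (m + m * h * Mg L R g + 2 * h * Mg L R g / l) := by
    intro g hg
    have hgJ := mem_range.mp hg
    obtain ⟨hM, hy1, hy2⟩ := hfin g hgJ
    have hM0 := hB.mpos g hgJ
    have hW0 := hB.Wg_nonneg hgJ
    have hMl : Mg L R g / l ≤ K5 / l / J := by
      rw [div_div, mul_comm l, ← div_div]
      exact div_le_div_of_nonneg_right hM hl0.le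
    have hMl0 : 0 ≤ Mg L R g / l := div_nonneg hM0.le hl0.le
    have hA2 : Mg L R g / l ≤ ε := hMl.trans hJ3.le
    have hA1 : 4 * h * (Mg L R g / l) ^ 2 ≤ ε := by
      have h1 : (Mg L R g / l) ^ 2 ≤ (K5 / l / J) ^ 2 := pow_le_pow_left₀ hMl0 hMl 2
      have h2 : 4 * (h : ℝ) * (K5 / l / J) ^ 2 = 4 * s * K5 ^ 2 / l ^ 2 / J := by
        rw [hhc]
        field_simp
      calc 4 * (h : ℝ) * (Mg L R g / l) ^ 2 ≤ 4 * (h : ℝ) * (K5 / l / J) ^ 2 :=
            mul_le_mul_of_nonneg_left h1 (by positivity)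
        _ ≤ ε := by rw [h2]; exact hJ2.le
    have hMK : Mg L R g ≤ K5 := hM.trans (div_le_self hK5.le (by exact_mod_cast hJ1))
    have hA3 : 4 * h * Mg L R g / (m * l) ≤ ε := by
      have hm2' : 4 * (h : ℝ) * K5 / (l * ε) ≤ m := hm2
      rw [div_le_iff₀ (by positivity)] at hm2' ⊢
      have : 4 * (h : ℝ) * Mg L R g ≤ 4 * h * K5 := mul_le_mul_of_nonneg_left hMK (by positivity)
      linarith
    have hexp : Real.exp (-(n : ℝ) + y g + 4 * h * (Mg L R g / l) ^ 2 + Mg L R g / l +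
        4 * h * Mg L R g / (m * l)) ≤ en * e3 * Real.exp (y g) := by
      rw [hen, he3, ← Real.exp_add, ← Real.exp_add]
      apply Real.exp_le_exp.mpr
      linarith
    have hfac : 0 ≤ 1 + (h * Wg L R g + 2 * h * Mg L R g / (m * l)) := by positivity
    have h1 : Real.exp (-(n : ℝ) + y g +
      4 * h * (Mg L R g / l) ^ 2 + Mg L R g / l + 4 * h * Mg L R g / (m * l)) *
      (1 + (h * Wg L R g + 2 * h * Mg L R g / (m * l))) ≤
      en * e3 * (E * (1 + h * Mg L R g + 2 * h * Mg L R g / (m * l))) := by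
      refine (mul_le_mul_of_nonneg_right hexp hfac).trans ?_
      rw [mul_assoc (en * e3)]
      apply mul_le_mul_of_nonneg_left _ (by positivity)
      have h2 : 0 ≤ 2 * h * Mg L R g / (m * l) := by positivity
      have h3 : Real.exp (y g) * (2 * h * Mg L R g / (m * l)) ≤ E * (2 * h * Mg L R g / (m * l)) :=
        mul_le_mul_of_nonneg_right hy1 h2
      have h4 : h * (Real.exp (y g) * Wg L R g) ≤ h * (E * Mg L R g) :=
        mul_le_mul_of_nonneg_left hy2 hh'.le
      calc Real.exp (y g) * (1 + (h * Wg L R g + 2 * h * Mg L R g / (m * l)))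
          = Real.exp (y g) + h * (Real.exp (y g) * Wg L R g) +
            Real.exp (y g) * (2 * h * Mg L R g / (m * l)) := by ring
        _ ≤ E + h * (E * Mg L R g) + E * (2 * h * Mg L R g / (m * l)) := by linarith
        _ = _ := by ring
    refine (mul_le_mul_of_nonneg_left h1 hm'.le).trans (le_of_eq ?_)
    field_simp
  have hsumband := sum_le_sum hband
  have hMs := hB.sum_Mg_eq
  have hMs1 : ∑ g ∈ range J, Mg L R g ≤ 1 := by
    rw [hMs]
    have := hB.le_one
    have := hB.pos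
    linarith
  have hMs0 : 0 ≤ ∑ g ∈ range J, Mg L R g := sum_nonneg fun g hg =>
    (hB.mpos g (mem_range.mp hg)).le
  have hS : ∑ g ∈ range J, en * e3 * E * (m + m * h * Mg L R g + 2 * h * Mg L R g / l) =
      en * e3 * E * (J * m + m * h * (∑ g ∈ range J, Mg L R g) +
        2 * h / l * ∑ g ∈ range J, Mg L R g) := by
    rw [← mul_sum, sum_add_distrib, sum_add_distrib, sum_const, card_range, nsmul_eq_mul,
      ← mul_sum]
    congr 2
    rw [mul_sum]
    apply sum_congr rfl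
    intro g _
    ring
  rw [hS] at hsumband
  have b1 : (J : ℝ) * m ≤ ε * n / 2 := by
    have h1 : (J : ℝ) * m ≤ (ε * s) * (J * m) := by
      have : 0 ≤ (J : ℝ) * m := by positivity
      nlinarith
    have h2 : (m : ℝ) * (2 * (J * s)) ≤ n := by
      rw [← hhc]
      linarith
    have h3 : ε * ((m : ℝ) * (2 * (J * s))) ≤ ε * n := mul_le_mul_of_nonneg_left h2 hε.le
    have h4 : (ε * s) * (J * m) = ε * ((m : ℝ) * (2 * (J * s))) / 2 := by ring
    linarith
  have b2 : (m : ℝ) * h * (∑ g ∈ range J, Mg L R g) ≤ n / 2 := by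
    have h1 : (m : ℝ) * h * (∑ g ∈ range J, Mg L R g) ≤ (m : ℝ) * h * 1 :=
      mul_le_mul_of_nonneg_left hMs1 (by positivity)
    linarith
  have b3 : 2 * h / l * (∑ g ∈ range J, Mg L R g) ≤ ε * n := by
    have h1 : 2 * (h : ℝ) / l * (∑ g ∈ range J, Mg L R g) ≤ 2 * h / l * 1 :=
      mul_le_mul_of_nonneg_left hMs1 (by positivity)
    rw [div_le_iff₀ (by positivity)] at hn2
    have h2 : 2 * (h : ℝ) / l ≤ ε * n := by
      rw [div_le_iff₀ hl0]
      linarith
    linarith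
  have hfinal : en * e3 * E * (J * m + m * h * (∑ g ∈ range J, Mg L R g) +
        2 * h / l * ∑ g ∈ range J, Mg L R g) ≤ en * e3 * E * (n * (1 / 2 + 3 / 2 * ε)) := by
    apply mul_le_mul_of_nonneg_left _ (by positivity)
    linarith
  have hcost' : ∑ i, ∏ k, b i k ≤ ε * n * en := by
    refine hcost.trans ?_
    apply mul_le_mul_of_nonneg_right _ hen0.le
    exact mul_le_mul_of_nonneg_right (min_le_left _ _) hn0
  calc ∑ i, ∏ k, b i k + _ ≤ ε * n * en + en * e3 * E * (n * (1 / 2 + 3 / 2 * ε)) :=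
        add_le_add hcost' (hsumband.trans hfinal)
    _ = (ε + e3 * E * (1 / 2 + 3 / 2 * ε)) * (n * en) := by ring
    _ ≤ K * (n * en) := mul_le_mul_of_nonneg_right hεK (by positivity)
    _ = _ := by ring

end Pool.Agent.H54Sharp
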