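import Pool.Agent.H54Sharp.Upper
import Pool.Agent.H54Sharp.Limit
import Pool.Agent.Helper62.AS.Rows
import Pool.Agent.Helper3.Sharp.Column
import Pool.Agent.ASY.Row46
import Pool.Agent.Helper18.Sharp.Move
import Pool.Agent.H80Band.FinB
import Pool.Agent.Helper45.SH.Crude

set_option autoImplicit false

namespace Pool.Agent.H54Sharp

/-- The upper half of `1 - s_n ~ (exp (1 + γ) / 2) n exp (-n)`. -/
theorem upper_all : UpperHalf :=
  upperHalf Pool.Agent.Helper62.AS.dominanceRow Pool.Agent.Helper62.AS.pathRow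
    Pool.Agent.Helper3.Sharp.columnRow Pool.Agent.ASY.volumeRow46
    Pool.Agent.Helper18.Sharp.move_row Pool.Agent.H80Band.bandsRow80
    Pool.Agent.Helper45.SH.crudeRow

end Pool.Agent.H54Sharp
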